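import Pool.Agent.E8helper17.CND.S

/-! CND, piece ADD. -/

set_option autoImplicit false

namespace Pool.Agent.E8helper22.CND

open H17CND SimpleGraph

/-- splitting a walk at a dart -/
theorem split_dart {V : Type} {G : SimpleGraph V} {u v : V} (c : G.Walk u v) (d : G.Dart)
    (hd : d ∈ c.darts) : ∃ (p : G.Walk u d.fst) (q : G.Walk d.snd v),
      c = p.append (Walk.cons d.adj q) := by
  induction c with
  | nil => simp at hd
  | cons h c ih =>
    rw [Walk.darts_cons, List.mem_cons] at hd
    rcases hd with rfl | hd
    · exact ⟨Walk.nil, c, rfl⟩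
    · obtain ⟨p, q, hpq⟩ := ih hd
      exact ⟨Walk.cons h p, q, by rw [Walk.cons_append, ← hpq]⟩

theorem adj_of {V : Type} {G : SimpleGraph V} {a b : V} {e : Sym2 V}
    (he : e ∈ (G ⊔ SimpleGraph.edge a b).edgeSet) (hne : e ≠ s(a, b)) : e ∈ G.edgeSet := by
  induction e with
  | _ x y =>
    rw [SimpleGraph.mem_edgeSet, SimpleGraph.sup_adj, SimpleGraph.edge_adj] at he
    rcases he with he | ⟨he, -⟩
    · exact he
    · exfalso
      apply hne
      rcases he with ⟨rfl, rfl⟩ | ⟨rfl, rfl⟩
      · rfl
      · exact Sym2.eq_swap

theorem ADD : S_ADD := by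
  classical
  intro V G g a b hab hG hfar v c hc
  by_cases hmem : s(a, b) ∈ c.edges
  · obtain ⟨d, hd, hde⟩ := List.mem_map.1 hmem
    obtain ⟨p, q, hpq⟩ := split_dart c d hd
    have hnd : c.edges.Nodup := hc.isTrail.edges_nodup
    have hlen : c.length = (q.append p).length + 1 := by
      rw [hpq, Walk.length_append, Walk.length_append, Walk.length_cons]; omega
    have hnot : s(a, b) ∉ (q.append p).edges := by
      rw [hpq, Walk.edges_append, Walk.edges_cons] at hnd
      have h1 : s(d.fst, d.snd) = s(a, b) := hde
      rw [h1] at hnd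
      rw [Walk.edges_append, List.mem_append]
      rw [List.nodup_append] at hnd
      obtain ⟨-, h2, h3⟩ := hnd
      rw [List.nodup_cons] at h2
      rintro (h4 | h4)
      · exact h2.1 h4
      · exact h3 _ h4 _ List.mem_cons_self rfl
    have htr : ∀ e ∈ (q.append p).edges, e ∈ G.edgeSet := by
      intro e he
      refine adj_of ((q.append p).edges_subset_edgeSet he) ?_
      rintro rfl
      exact hnot he
    have h5 : ((q.append p).transfer G htr).length = (q.append p).length :=
      Walk.length_transfer _ _
    have h6 : (d.fst = a ∧ d.snd = b) ∨ (d.fst = b ∧ d.snd = a) := by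
      have h1 : s(d.fst, d.snd) = s(a, b) := hde
      rw [Sym2.eq_iff] at h1
      exact h1
    have h7 : g - 1 ≤ ((q.append p).transfer G htr).length := by
      rcases h6 with ⟨h8, h9⟩ | ⟨h8, h9⟩
      · have := hfar (((q.append p).transfer G htr).reverse.copy h8 h9)
        rwa [Walk.length_copy, Walk.length_reverse] at this
      · have := hfar (((q.append p).transfer G htr).copy h9 h8)
        rwa [Walk.length_copy] at this
    omega
  · have htr : ∀ e ∈ c.edges, e ∈ G.edgeSet := by
      intro e he
      refine adj_of (c.edges_subset_edgeSet he) ?_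
      rintro rfl
      exact hmem he
    have h1 := hG v (c.transfer G htr) (hc.transfer htr)
    rwa [Walk.length_transfer] at h1

end Pool.Agent.E8helper22.CND
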